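import Mathlib
import Pool.Agent.V1119.Flood

/-!
The coset-counting recurrence procedure in the free group of rank two terminates for every
subgroup of finite index and every coset: the sets `C i` are the breadth first search layers in
the bipartite double cover of the Schreier graph.
-/

namespace Pool.Agent.Results.MP_544047_al.AlwaysTerminates

open Pool.Agent.V1119

/-- The letters `a, b, a⁻¹, b⁻¹` of the free group of rank two. -/
def letters : Set (FreeGroup (Fin 2)) :=
  {FreeGroup.of 0, FreeGroup.of 1, (FreeGroup.of 0)⁻¹, (FreeGroup.of 1)⁻¹}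

/-- The sets `C_i` of left cosets: `C_0 = {yH}`, `C_1 = Ξ C_0` (as `C_{-1} = ∅`), and
`C_{i+2} = Ξ C_{i+1} \ C_i`. -/
def C (H : Subgroup (FreeGroup (Fin 2))) (y : FreeGroup (Fin 2)) :
    ℕ → Set (FreeGroup (Fin 2) ⧸ H)
  | 0 => {(QuotientGroup.mk y : FreeGroup (Fin 2) ⧸ H)}
  | 1 => {z | ∃ h ∈ letters, ∃ c ∈ C H y 0, z = h • c}
  | (i+2) => {z | ∃ h ∈ letters, ∃ c ∈ C H y (i+1), z = h • c} \ C H y i

theorem letters_symm : ∀ h ∈ letters, h⁻¹ ∈ letters := by
  intro h hh
  simp only [letters, Set.mem_insert_iff, Set.mem_singleton_iff] at hh ⊢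
  rcases hh with rfl | rfl | rfl | rfl <;> simp

theorem letters_ne : letters.Nonempty := ⟨FreeGroup.of 0, by simp [letters]⟩

theorem C_eq (H : Subgroup (FreeGroup (Fin 2))) (y : FreeGroup (Fin 2)) (i : ℕ) :
    C H y i = Flood.S letters (QuotientGroup.mk y : FreeGroup (Fin 2) ⧸ H) (i+1) \
      Flood.S letters (QuotientGroup.mk y : FreeGroup (Fin 2) ⧸ H) (i-1) := by
  induction i using Nat.strong_induction_on with
  | _ i ih =>
    match i, ih with
    | 0, _ => simp [C, Flood.S]
    | 1, _ =>
      have h0 : (C H y 1) = Flood.nb letters (C H y 0) := by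
        rw [C]; rfl
      rw [h0]
      simp only [Nat.sub_self, Flood.S, Set.sdiff_empty]
      rw [C]
    | (n+2), ih =>
      have h0 : (C H y (n+2)) = Flood.nb letters (C H y (n+1)) \ C H y n := by
        rw [C]; rfl
      rw [h0, ih (n+1) (by omega), ih n (by omega)]
      exact Flood.layer_rec letters letters_symm _ n

/-- For every subgroup `H` of finite index in `F_2` and every `y`, the set `C_i` is empty for
every `i > [F_2 : H]`; so the procedure always terminates. -/
theorem result : ∀ H : Subgroup (FreeGroup (Fin 2)), H.FiniteIndex →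
    ∀ y : FreeGroup (Fin 2), ∀ i : ℕ, H.index < i → C H y i = ∅ := by
  intro H hH y i hi
  by_contra hne
  have hne' : (C H y i).Nonempty := Set.nonempty_iff_ne_empty.2 hne
  rw [C_eq] at hne'
  have : Finite (FreeGroup (Fin 2) ⧸ H) := Subgroup.finite_quotient_of_finiteIndex
  cases i with
  | zero => omega
  | succ n =>
    have h1 := Flood.layer_le_card letters letters_symm letters_ne _ n hne'
    have h2 : Nat.card (FreeGroup (Fin 2) ⧸ H) = H.index := rfl
    omega

end Pool.Agent.Results.MP_544047_al.AlwaysTerminates
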